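import Pool.Agent.NPC.Member

/-!
# ODD-PATHS is NP-complete, so that it is in co-NP iff NP = co-NP
-/

namespace Pool.Agent.Results.MP_636301_lc.NPComplete

/-- ODD-PATHS is in NP and every language in NP is polynomial-time many-one reducible to it; it is
in co-NP iff NP = co-NP; and its no-instances have polynomially verifiable certificates iff
NP = co-NP. -/
theorem result :
    (OddP.ODDPATHS ∈ NPC.NP ∧ ∀ L ∈ NPC.NP, NPC.Reduces L OddP.ODDPATHS) ∧
    (OddP.ODDPATHS ∈ NPC.coNP ↔ NPC.NP = NPC.coNP) ∧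
    ((∃ C ∈ NPC.NP, ∀ I : OddP.Instance, I.Valid → (I.encode ∈ C ↔ ¬ I.Yes)) ↔
      NPC.NP = NPC.coNP) :=
  ⟨⟨NPC.oddpaths_mem, fun _ hL => NPC.oddpaths_hard hL⟩, NPC.conp_iff, NPC.cert_iff⟩

end Pool.Agent.Results.MP_636301_lc.NPComplete
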